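import Pool.Agent.Lib_helper58.MBS.L.AJET

/-! # Jet differentials: jets of compositions (MP_45e720_ag) -/

set_option autoImplicit false
set_option linter.unusedSectionVars false

open Filter Topology Metric Set
open scoped Nat

namespace Pool.Agent.GGH

variable {E : Type} [NormedAddCommGroup E] [NormedSpace ℂ E] [FiniteDimensional ℂ E]

/-- the polynomial curve with the jet `J` -/
noncomputable def pol (k : ℕ) (J : Fin (k + 1) → E) (z : ℂ) : E :=
  ∑ p : Fin (k + 1), (z ^ (p : ℕ) / ((p : ℕ)! : ℂ)) • J p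

/-- the jet of order `k` at the point `s` -/
noncomputable def jt (k : ℕ) (f : ℂ → E) (s : ℂ) : Fin (k + 1) → E :=
  fun q => iteratedDeriv q f s

theorem pol_an {k : ℕ} (J : Fin (k + 1) → E) (z : ℂ) : AnalyticAt ℂ (pol k J) z := by
  unfold pol
  apply Finset.analyticAt_fun_sum
  intro p _
  have h : AnalyticAt ℂ (fun z : ℂ => z ^ (p : ℕ) / ((p : ℕ)! : ℂ)) z := by
    apply AnalyticAt.div
    · exact analyticAt_id.pow _
    · exact analyticAt_const
    · exact_mod_cast Nat.factorial_ne_zero _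
  exact h.smul analyticAt_const

/-- composition of a polynomial curve with a function -/
theorem it_pol_comp {k : ℕ} (J : Fin (k + 1) → E) {g : ℂ → ℂ} {s : ℂ} (hg : AnalyticAt ℂ g s)
    (q : ℕ) : iteratedDeriv q (fun z => pol k J (g z)) s =
      ∑ p : Fin (k + 1), (iteratedDeriv q (fun z => g z ^ (p : ℕ)) s / ((p : ℕ)! : ℂ)) • J p := by
  unfold pol
  have h : ∀ p : Fin (k + 1), AnalyticAt ℂ (fun z : ℂ => g z ^ (p : ℕ) / ((p : ℕ)! : ℂ)) s := by
    intro p
    apply AnalyticAt.div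
    · exact hg.pow _
    · exact analyticAt_const
    · exact_mod_cast Nat.factorial_ne_zero _
  have h' : ∀ p : Fin (k + 1), AnalyticAt ℂ (fun z : ℂ => (g z ^ (p : ℕ) / ((p : ℕ)! : ℂ)) • J p) s :=
    fun p => (h p).smul analyticAt_const
  rw [iteratedDeriv_fun_sum (fun p _ => (h' p).contDiffAt)]
  refine Finset.sum_congr rfl fun p _ => ?_
  rw [iteratedDeriv_smul_const (h p).contDiffAt, iteratedDeriv_div_const]

theorem jt_pol {k : ℕ} (J : Fin (k + 1) → E) : jt k (pol k J) 0 = J := by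
  funext q
  have h := it_pol_comp J (g := fun z => z) (s := 0) analyticAt_id q
  have h2 : (fun z => pol k J z) = pol k J := rfl
  rw [h2] at h
  unfold jt
  rw [h, Finset.sum_eq_single q]
  · rw [iteratedDeriv_fun_pow_zero, if_pos rfl, div_self, one_smul]
    exact_mod_cast Nat.factorial_ne_zero _
  · intro p _ hp
    have h3 : (q : ℕ) ≠ p := fun h3 => hp (Fin.ext h3.symm)
    rw [iteratedDeriv_fun_pow_zero, if_neg h3]
    simp
  · intro h3
    exact absurd (Finset.mem_univ q) h3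

/-- jets of order `k` at `0` agree iff the difference is `O(z ^ (k + 1))` -/
theorem jt_eq_iff {k : ℕ} {c d : ℂ → E} (hc : AnalyticAt ℂ c 0) (hd : AnalyticAt ℂ d 0) :
    jt k c 0 = jt k d 0 ↔ ∃ C : ℝ, ∀ᶠ z in 𝓝 (0 : ℂ), ‖c z - d z‖ ≤ C * ‖z‖ ^ (k + 1) := by
  rw [← MBS.jets_eq_iff_pr hc hd]
  constructor
  · intro h q hq
    exact congrFun h ⟨q, hq⟩
  · intro h
    funext q
    exact h q q.2

/-- the jet of a composition depends only on the jets -/
theorem jt_comp_congr {k : ℕ} {c d : ℂ → E} {g : ℂ → ℂ} (hc : AnalyticAt ℂ c 0)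
    (hd : AnalyticAt ℂ d 0) (hg : AnalyticAt ℂ g 0) (h0 : g 0 = 0) (h : jt k c 0 = jt k d 0) :
    jt k (fun z => c (g z)) 0 = jt k (fun z => d (g z)) 0 := by
  have hc' : AnalyticAt ℂ c (g 0) := by rwa [h0]
  have hd' : AnalyticAt ℂ d (g 0) := by rwa [h0]
  rw [jt_eq_iff (hc'.fun_comp hg) (hd'.fun_comp hg)]
  obtain ⟨C, hC⟩ := (jt_eq_iff hc hd).1 h
  have ht : Tendsto g (𝓝 0) (𝓝 0) := by
    have := hg.continuousAt.tendsto
    rwa [h0] at this
  -- `g` is `O(z)`
  obtain ⟨D, hD⟩ : ∃ D : ℝ, ∀ᶠ z in 𝓝 (0 : ℂ), ‖g z‖ ≤ D * ‖z‖ := by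
    have h1 := hg.differentiableAt.isBigO_sub
    simp only [h0, sub_zero] at h1
    exact h1.bound
  refine ⟨|C| * D ^ (k + 1), ?_⟩
  filter_upwards [ht.eventually hC, hD] with z hz hz2
  calc ‖c (g z) - d (g z)‖ ≤ C * ‖g z‖ ^ (k + 1) := hz
    _ ≤ |C| * ‖g z‖ ^ (k + 1) := by gcongr; exact le_abs_self C
    _ ≤ |C| * (D * ‖z‖) ^ (k + 1) := by gcongr
    _ = |C| * D ^ (k + 1) * ‖z‖ ^ (k + 1) := by ring

/-- the jet of a composition -/
theorem jt_comp {k : ℕ} {c : ℂ → E} {g : ℂ → ℂ} (hc : AnalyticAt ℂ c 0)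
    (hg : AnalyticAt ℂ g 0) (h0 : g 0 = 0) (q : Fin (k + 1)) :
    jt k (fun z => c (g z)) 0 q =
      ∑ p : Fin (k + 1), (iteratedDeriv q (fun z => g z ^ (p : ℕ)) 0 / ((p : ℕ)! : ℂ)) •
        jt k c 0 p := by
  have h1 := jt_comp_congr (k := k) hc (pol_an (jt k c 0) 0) hg h0 (jt_pol _).symm
  have h2 := congrFun h1 q
  rw [h2]
  exact it_pol_comp _ hg q

/-- the coefficient of the jets of the family `z ↦ z * u (τ * z)` -/
theorem it_fam {u : ℂ → ℂ} (hu : AnalyticAt ℂ u 0) (τ : ℂ) (q p : ℕ) :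
    iteratedDeriv q (fun z => (z * u (τ * z)) ^ p) 0 =
      if p ≤ q then τ ^ (q - p) * iteratedDeriv q (fun z => (z * u z) ^ p) 0 else 0 := by
  -- the Taylor polynomial of `u ^ p`
  set v : ℂ → ℂ := fun z => u z ^ p with hv
  have hva : AnalyticAt ℂ v 0 := hu.pow p
  set J : Fin (q + 1) → ℂ := jt q v 0 with hJ
  have h1 : jt q v 0 = jt q (pol q J) 0 := by rw [jt_pol]
  obtain ⟨C, hC⟩ := (jt_eq_iff hva (pol_an J 0)).1 h1
  -- comparison for each `τ`
  have key : ∀ τ : ℂ, iteratedDeriv q (fun z => (z * u (τ * z)) ^ p) 0 =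
      iteratedDeriv q (fun z => z ^ p * pol q J (τ * z)) 0 := by
    intro τ
    have ha1 : AnalyticAt ℂ (fun z => (z * u (τ * z)) ^ p) 0 := by
      have h2 : AnalyticAt ℂ (fun z : ℂ => τ * z) 0 := analyticAt_const.mul analyticAt_id
      have h3 : AnalyticAt ℂ u (τ * 0) := by rwa [mul_zero]
      exact (analyticAt_id.mul (h3.fun_comp (f := fun z : ℂ => τ * z) h2)).pow p
    have ha2 : AnalyticAt ℂ (fun z => z ^ p * pol q J (τ * z)) 0 := by
      have h2 : AnalyticAt ℂ (fun z : ℂ => τ * z) 0 := analyticAt_const.mul analyticAt_id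
      exact (analyticAt_id.pow p).mul ((pol_an J _).fun_comp (f := fun z : ℂ => τ * z) h2)
    have h4 : jt q (fun z => (z * u (τ * z)) ^ p) 0 = jt q (fun z => z ^ p * pol q J (τ * z)) 0 := by
      rw [jt_eq_iff ha1 ha2]
      refine ⟨|C| * ‖τ‖ ^ (q + 1), ?_⟩
      have ht : Tendsto (fun z : ℂ => τ * z) (𝓝 0) (𝓝 0) := by
        have h5 : ContinuousAt (fun z : ℂ => τ * z) 0 := by fun_prop
        have := h5.tendsto
        rwa [mul_zero] at this
      have hb : ∀ᶠ z in 𝓝 (0 : ℂ), ‖z‖ ≤ 1 := by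
        have := ball_mem_nhds (0 : ℂ) one_pos
        filter_upwards [this] with z hz
        rw [mem_ball_zero_iff] at hz
        exact hz.le
      filter_upwards [ht.eventually hC, hb] with z hz hz1
      have h6 : (z * u (τ * z)) ^ p - z ^ p * pol q J (τ * z) =
          z ^ p * (v (τ * z) - pol q J (τ * z)) := by
        rw [hv]
        ring
      rw [h6, norm_mul, norm_pow]
      have h7 : ‖z‖ ^ p ≤ 1 := pow_le_one₀ (norm_nonneg _) hz1
      calc ‖z‖ ^ p * ‖v (τ * z) - pol q J (τ * z)‖ ≤ 1 * ‖v (τ * z) - pol q J (τ * z)‖ := by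
            gcongr
        _ = ‖v (τ * z) - pol q J (τ * z)‖ := one_mul _
        _ ≤ C * ‖τ * z‖ ^ (q + 1) := hz
        _ ≤ |C| * ‖τ * z‖ ^ (q + 1) := by gcongr; exact le_abs_self C
        _ = |C| * ‖τ‖ ^ (q + 1) * ‖z‖ ^ (q + 1) := by rw [norm_mul]; ring
    exact congrFun h4 ⟨q, Nat.lt_succ_self q⟩
  -- evaluation of the polynomial
  have key2 : ∀ τ : ℂ, iteratedDeriv q (fun z => z ^ p * pol q J (τ * z)) 0 =
      ∑ n : Fin (q + 1), (if q = p + n then ((q ! : ℕ) : ℂ) * (τ ^ (n : ℕ) / ((n : ℕ)! : ℂ)) * J n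
        else 0) := by
    intro τ
    have h5 : (fun z => z ^ p * pol q J (τ * z)) =
        fun z => ∑ n : Fin (q + 1), (τ ^ (n : ℕ) / ((n : ℕ)! : ℂ) * J n) * z ^ (p + n) := by
      funext z
      unfold pol
      rw [Finset.mul_sum]
      refine Finset.sum_congr rfl fun n _ => ?_
      rw [smul_eq_mul, mul_pow, pow_add]
      ring
    rw [h5, iteratedDeriv_fun_sum]
    · refine Finset.sum_congr rfl fun n _ => ?_
      rw [iteratedDeriv_const_mul_field, iteratedDeriv_fun_pow_zero]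
      by_cases h6 : q = p + n
      · rw [if_pos h6, if_pos h6, ← h6]
        ring
      · rw [if_neg h6, if_neg h6]
        simp
    · intro n _
      exact (analyticAt_const.mul (analyticAt_id.pow _)).contDiffAt
  rw [key, key2]
  have h7 : iteratedDeriv q (fun z => (z * u z) ^ p) 0 = ∑ n : Fin (q + 1),
      (if q = p + n then ((q ! : ℕ) : ℂ) * (1 / ((n : ℕ)! : ℂ)) * J n else 0) := by
    have h8 := (key 1).trans (key2 1)
    simpa using h8
  rw [h7]
  split_ifs with hpq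
  · rw [Finset.mul_sum]
    refine Finset.sum_congr rfl fun n _ => ?_
    by_cases h6 : q = p + n
    · rw [if_pos h6, if_pos h6]
      have h9 : q - p = n := by omega
      rw [h9]
      ring
    · rw [if_neg h6, if_neg h6, mul_zero]
  · refine Finset.sum_eq_zero fun n _ => ?_
    rw [if_neg]
    omega

/-- the action of the family on jets -/
noncomputable def act (k : ℕ) (u : ℂ → ℂ) (τ : ℂ) (J : Fin (k + 1) → E) : Fin (k + 1) → E :=
  fun q => ∑ p : Fin (k + 1), (if p ≤ q then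
    τ ^ ((q : ℕ) - p) * (iteratedDeriv q (fun z => (z * u z) ^ (p : ℕ)) 0 / ((p : ℕ)! : ℂ)) else 0) • J p

theorem jt_fam {k : ℕ} {c : ℂ → E} (hc : AnalyticAt ℂ c 0) {u : ℂ → ℂ} (hu : AnalyticAt ℂ u 0)
    (τ : ℂ) : jt k (fun z => c (z * u (τ * z))) 0 = act k u τ (jt k c 0) := by
  funext q
  have h2 : AnalyticAt ℂ (fun z : ℂ => τ * z) 0 := analyticAt_const.mul analyticAt_id
  have h3 : AnalyticAt ℂ u (τ * 0) := by rwa [mul_zero]
  have ha : AnalyticAt ℂ (fun z => z * u (τ * z)) 0 :=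
    analyticAt_id.mul (h3.fun_comp (f := fun z : ℂ => τ * z) h2)
  rw [jt_comp hc ha (by simp)]
  unfold act
  refine Finset.sum_congr rfl fun p _ => ?_
  rw [it_fam hu]
  by_cases h : p ≤ q
  · rw [if_pos h, if_pos (by exact_mod_cast h)]
    congr 1
    ring
  · rw [if_neg h, if_neg (by exact_mod_cast h)]
    simp

/-- scaling of jets -/
def sc {k : ℕ} (l : ℂ) (J : Fin (k + 1) → E) : Fin (k + 1) → E := fun q => l ^ (q : ℕ) • J q

theorem jt_sc {k : ℕ} {c : ℂ → E} (hc : AnalyticAt ℂ c 0) (l : ℂ) :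
    jt k (fun z => c (l * z)) 0 = sc l (jt k c 0) := by
  funext q
  have h2 : AnalyticAt ℂ (fun z : ℂ => l * z) 0 := analyticAt_const.mul analyticAt_id
  rw [jt_comp hc h2 (by simp), Finset.sum_eq_single q]
  · unfold sc
    congr 1
    have h3 : (fun z : ℂ => (l * z) ^ (q : ℕ)) = fun z => l ^ (q : ℕ) * z ^ (q : ℕ) := by
      funext z
      rw [mul_pow]
    rw [h3, iteratedDeriv_const_mul_field, iteratedDeriv_fun_pow_zero, if_pos rfl]
    have h4 : (((q : ℕ)! : ℕ) : ℂ) ≠ 0 := by exact_mod_cast Nat.factorial_ne_zero _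
    field_simp
  · intro p _ hp
    have h3 : (fun z : ℂ => (l * z) ^ (p : ℕ)) = fun z => l ^ (p : ℕ) * z ^ (p : ℕ) := by
      funext z
      rw [mul_pow]
    have h5 : (q : ℕ) ≠ p := fun h5 => hp (Fin.ext h5.symm)
    rw [h3, iteratedDeriv_const_mul_field, iteratedDeriv_fun_pow_zero, if_neg h5]
    simp
  · intro h
    exact absurd (Finset.mem_univ q) h

theorem act_sc {k : ℕ} (u : ℂ → ℂ) (τ : ℂ) {l : ℂ} (hl : l ≠ 0) (J : Fin (k + 1) → E) :
    act k u τ (sc l J) = sc l (act k u (l⁻¹ * τ) J) := by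
  funext q
  unfold act sc
  rw [Finset.smul_sum]
  refine Finset.sum_congr rfl fun p _ => ?_
  rw [smul_smul, smul_smul]
  congr 1
  by_cases h : p ≤ q
  · rw [if_pos h, if_pos h, mul_pow, inv_pow]
    have h1 : l ^ (q : ℕ) = l ^ (p : ℕ) * l ^ ((q : ℕ) - p) := by
      rw [← pow_add, Nat.add_sub_cancel' (by exact_mod_cast h)]
    rw [h1]
    have h2 : l ^ ((q : ℕ) - p) ≠ 0 := pow_ne_zero _ hl
    field_simp
  · rw [if_neg h, if_neg h]
    simp

end Pool.Agent.GGH
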