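import Pool.Agent.Lib_helper58.GG.H1

/-! # Jet differentials: the family of reparametrisations in a chart (MP_45e720_ag) -/

set_option autoImplicit false
set_option linter.unusedSectionVars false

open Filter Topology Metric Set

namespace Pool.Agent.GGH

variable {E : Type} [NormedAddCommGroup E] [NormedSpace ℂ E] [FiniteDimensional ℂ E]

/-- the iterated derivatives in the first variable of an analytic function are analytic -/
theorem an_param {V : Type} [NormedAddCommGroup V] [NormedSpace ℂ V] {F : ℂ × V → ℂ} {J : V}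
    (hF : AnalyticAt ℂ F (0, J)) (n : ℕ) : ∃ G : ℂ × V → ℂ, AnalyticAt ℂ G (0, J) ∧
      ∀ᶠ p in 𝓝 ((0 : ℂ), J), iteratedDeriv n (fun τ => F (τ, p.2)) p.1 = G p := by
  induction n with
  | zero => exact ⟨F, hF, Eventually.of_forall fun p => by simp⟩
  | succ n ih =>
    obtain ⟨G, hG, hGe⟩ := ih
    refine ⟨fun p => fderiv ℂ G p (1, 0), ?_, ?_⟩
    · exact (ContinuousLinearMap.apply ℂ ℂ ((1 : ℂ), (0 : V))).analyticAt _ |>.comp hG.fderiv
    · filter_upwards [eventually_eventually_nhds.2 hGe, hG.eventually_analyticAt] with p hp hp2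
      have hc : ContinuousAt (fun τ : ℂ => (τ, p.2)) p.1 := by fun_prop
      have h1 : ∀ᶠ τ in 𝓝 p.1, iteratedDeriv n (fun τ => F (τ, p.2)) τ = G (τ, p.2) :=
        hc.eventually (p := fun p' : ℂ × V => iteratedDeriv n (fun τ => F (τ, p'.2)) p'.1 = G p') hp
      have h2 : iteratedDeriv n (fun τ => F (τ, p.2)) =ᶠ[𝓝 p.1] fun τ => G (τ, p.2) := h1
      rw [iteratedDeriv_succ, h2.deriv_eq]
      have h3 : HasFDerivAt G (fderiv ℂ G p) ((fun τ : ℂ => (τ, p.2)) p.1) :=
        hp2.differentiableAt.hasFDerivAt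
      have h4 : HasDerivAt (fun τ : ℂ => (τ, p.2)) (1, 0) p.1 :=
        (hasDerivAt_id p.1).prodMk (hasDerivAt_const p.1 p.2)
      exact (h3.comp_hasDerivAt p.1 h4).deriv

theorem act_zero_entry {k : ℕ} {u : ℂ → ℂ} (hu : AnalyticAt ℂ u 0) (τ : ℂ)
    (J : Fin (k + 1) → E) : act k u τ J 0 = J 0 := by
  have h := jt_fam (k := k) (pol_an J 0) hu τ
  rw [jt_pol] at h
  rw [← h]
  have h2 := congrFun (jt_pol J) 0
  simp only [jt, Fin.val_zero, iteratedDeriv_zero] at h2 ⊢
  rw [zero_mul]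
  exact h2

theorem act_zero {k : ℕ} {u : ℂ → ℂ} (hu : AnalyticAt ℂ u 0) (hu0 : u 0 = 1)
    (J : Fin (k + 1) → E) : act k u 0 J = J := by
  have h := jt_fam (k := k) (pol_an J 0) hu 0
  rw [jt_pol] at h
  rw [← h]
  have h2 : (fun z => pol k J (z * u (0 * z))) = pol k J := by
    funext z
    rw [zero_mul, hu0, mul_one]
  rw [h2, jt_pol]

theorem act_an {k : ℕ} (u : ℂ → ℂ) (p : ℂ × (Fin (k + 1) → E)) :
    AnalyticAt ℂ (fun p : ℂ × (Fin (k + 1) → E) => act k u p.1 p.2) p := by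
  have hpi : ∀ q : Fin (k + 1), AnalyticAt ℂ
      (fun p : ℂ × (Fin (k + 1) → E) => act k u p.1 p.2 q) p := by
    intro q
    unfold act
    apply Finset.analyticAt_fun_sum
    intro r _
    have h1 : AnalyticAt ℂ (fun p : ℂ × (Fin (k + 1) → E) => p.2 r) p :=
      ((ContinuousLinearMap.proj (R := ℂ) (φ := fun _ : Fin (k + 1) => E) r).comp
        (ContinuousLinearMap.snd ℂ ℂ (Fin (k + 1) → E))).analyticAt p
    have h2 : AnalyticAt ℂ (fun p : ℂ × (Fin (k + 1) → E) => p.1) p := analyticAt_fst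
    by_cases h : r ≤ q
    · simp only [if_pos h]
      exact ((h2.pow _).mul analyticAt_const).smul h1
    · simp only [if_neg h]
      exact analyticAt_const.smul h1
  exact analyticAt_pi_iff.2 hpi

/-- an analytic function of jets in an open set of base points, homogeneous of weight `m` -/
structure HQ {k : ℕ} (U : Set E) (m : ℕ) (Q : (Fin (k + 1) → E) → ℂ) : Prop where
  an : ∀ J : Fin (k + 1) → E, J 0 ∈ U → AnalyticAt ℂ Q J
  hom : ∀ J : Fin (k + 1) → E, J 0 ∈ U → ∀ l : ℂ, l ≠ 0 → Q (sc l J) = l ^ m * Q J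

/-- the derivatives of `Q` along the family -/
noncomputable def Qn {k : ℕ} (u : ℂ → ℂ) (n : ℕ) (Q : (Fin (k + 1) → E) → ℂ)
    (J : Fin (k + 1) → E) : ℂ :=
  iteratedDeriv n (fun τ => Q (act k u τ J)) 0

theorem hq_fam_an {k m : ℕ} {U : Set E} {Q : (Fin (k + 1) → E) → ℂ} (hQ : HQ U m Q) {u : ℂ → ℂ}
    (hu : AnalyticAt ℂ u 0) (J : Fin (k + 1) → E) (hJ : J 0 ∈ U) (τ : ℂ) :
    AnalyticAt ℂ (fun p : ℂ × (Fin (k + 1) → E) => Q (act k u p.1 p.2)) (τ, J) := by
  have h1 : AnalyticAt ℂ Q (act k u τ J) := hQ.an _ (by rwa [act_zero_entry hu])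
  exact h1.comp (g := Q) (f := fun p : ℂ × (Fin (k + 1) → E) => act k u p.1 p.2) (x := (τ, J))
    (act_an u (τ, J))

theorem hq_fam_an1 {k m : ℕ} {U : Set E} {Q : (Fin (k + 1) → E) → ℂ} (hQ : HQ U m Q) {u : ℂ → ℂ}
    (hu : AnalyticAt ℂ u 0) (J : Fin (k + 1) → E) (hJ : J 0 ∈ U) (τ : ℂ) :
    AnalyticAt ℂ (fun τ : ℂ => Q (act k u τ J)) τ :=
  (hq_fam_an hQ hu J hJ τ).comp (f := fun τ : ℂ => (τ, J)) (x := τ)
    (analyticAt_id.prod analyticAt_const)

theorem qn_an {k m : ℕ} {U : Set E} {Q : (Fin (k + 1) → E) → ℂ} (hQ : HQ U m Q) {u : ℂ → ℂ}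
    (hu : AnalyticAt ℂ u 0) (n : ℕ) (J : Fin (k + 1) → E) (hJ : J 0 ∈ U) :
    AnalyticAt ℂ (Qn u n Q) J := by
  obtain ⟨G, hG, hGe⟩ := an_param (hq_fam_an hQ hu J hJ 0) n
  have hl : AnalyticAt ℂ (fun J' : Fin (k + 1) → E => ((0 : ℂ), J')) J :=
    analyticAt_const.prod analyticAt_id
  have h1 : AnalyticAt ℂ (fun J' : Fin (k + 1) → E => G (0, J')) J :=
    hG.comp (f := fun J' : Fin (k + 1) → E => ((0 : ℂ), J')) (x := J) hl
  refine h1.congr ?_
  filter_upwards [hl.continuousAt.eventually hGe] with J' hJ'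
  exact hJ'.symm

theorem qn_hom {k m : ℕ} {U : Set E} {Q : (Fin (k + 1) → E) → ℂ} (hQ : HQ U m Q) {u : ℂ → ℂ}
    (hu : AnalyticAt ℂ u 0) (n : ℕ) (J : Fin (k + 1) → E) (hJ : J 0 ∈ U) {l : ℂ} (hl : l ≠ 0) :
    l ^ n * Qn u n Q (sc l J) = l ^ m * Qn u n Q J := by
  unfold Qn
  have h1 : (fun τ => Q (act k u τ (sc l J))) =
      fun τ => l ^ m * (fun τ => Q (act k u τ J)) (l⁻¹ * τ) := by
    funext τ
    rw [act_sc u τ hl, hQ.hom _ (by rwa [act_zero_entry hu]) l hl]
  have hd : Differentiable ℂ (fun τ => Q (act k u τ J)) := fun τ =>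
    (hq_fam_an1 hQ hu J hJ τ).differentiableAt
  rw [h1, iteratedDeriv_const_mul_field,
    iteratedDeriv_comp_const_mul (hd.contDiff (n := n)) l⁻¹]
  simp only [mul_zero, inv_pow]
  have h2 : l ^ n ≠ 0 := pow_ne_zero _ hl
  field_simp

theorem sc_zero_act {k : ℕ} {u : ℂ → ℂ} (hu : AnalyticAt ℂ u 0) (τ : ℂ)
    (J : Fin (k + 1) → E) : act k u τ (sc 0 J) = sc 0 J := by
  have h := jt_fam (k := k) (pol_an (sc 0 J) 0) hu τ
  rw [jt_pol] at h
  have h2 : ∀ z, pol k (sc 0 J) z = J 0 := by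
    intro z
    unfold pol sc
    rw [Finset.sum_eq_single 0]
    · simp
    · intro p _ hp
      have h3 : (p : ℕ) ≠ 0 := fun h => hp (Fin.ext h)
      rw [zero_pow h3, zero_smul, smul_zero]
    · intro h
      exact absurd (Finset.mem_univ _) h
  have h3 : (fun z => pol k (sc 0 J) (z * u (τ * z))) = pol k (sc 0 J) := by
    funext z
    rw [h2, h2]
  rw [← h, h3, jt_pol]

theorem sc_cont {k : ℕ} (J : Fin (k + 1) → E) : Continuous (fun l : ℂ => sc l J) := by
  unfold sc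
  fun_prop

/-- the derivatives of order at least `m` vanish -/
theorem qn_zero {k m : ℕ} {U : Set E} {Q : (Fin (k + 1) → E) → ℂ} (hQ : HQ U m Q) {u : ℂ → ℂ}
    (hu : AnalyticAt ℂ u 0) (n : ℕ) (hm : 0 < m) (hn : m ≤ n) (J : Fin (k + 1) → E)
    (hJ : J 0 ∈ U) : Qn u n Q J = 0 := by
  have hJ0 : (sc 0 J : Fin (k + 1) → E) 0 ∈ U := by
    simpa [sc] using hJ
  have h0 : Qn u n Q (sc 0 J) = 0 := by
    unfold Qn
    have h1 : (fun τ => Q (act k u τ (sc 0 J))) = fun _ => Q (sc 0 J) := by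
      funext τ
      rw [sc_zero_act hu]
    rw [h1, iteratedDeriv_const, if_neg (by omega)]
  have h2 : ∀ l : ℂ, l ≠ 0 → l ^ (n - m) * Qn u n Q (sc l J) = Qn u n Q J := by
    intro l hl
    have h3 := qn_hom hQ hu n J hJ hl
    have h4 : l ^ n = l ^ m * l ^ (n - m) := by rw [← pow_add, Nat.add_sub_cancel' hn]
    rw [h4, mul_assoc] at h3
    exact mul_left_cancel₀ (pow_ne_zero _ hl) h3
  have hc : ContinuousAt (fun l : ℂ => l ^ (n - m) * Qn u n Q (sc l J)) 0 := by
    refine ContinuousAt.mul (by fun_prop) ?_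
    exact ContinuousAt.comp (f := fun l : ℂ => (sc l J : Fin (k + 1) → E))
      (g := Qn u n Q) (qn_an hQ hu n _ hJ0).continuousAt (sc_cont J).continuousAt
  have h5 : Tendsto (fun l : ℂ => l ^ (n - m) * Qn u n Q (sc l J)) (𝓝[≠] 0)
      (𝓝 (0 ^ (n - m) * Qn u n Q (sc 0 J))) := hc.tendsto.mono_left nhdsWithin_le_nhds
  have h6 : Tendsto (fun l : ℂ => l ^ (n - m) * Qn u n Q (sc l J)) (𝓝[≠] 0)
      (𝓝 (Qn u n Q J)) := by
    refine tendsto_const_nhds.congr' ?_
    filter_upwards [self_mem_nhdsWithin] with l hl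
    exact (h2 l hl).symm
  have h7 := tendsto_nhds_unique h5 h6
  rw [h0, mul_zero] at h7
  exact h7.symm

/-- if all derivatives vanish then `Q` is invariant -/
theorem q_inv {k m : ℕ} {U : Set E} {Q : (Fin (k + 1) → E) → ℂ} (hQ : HQ U m Q) {u : ℂ → ℂ}
    (hu : AnalyticAt ℂ u 0) (hu0 : u 0 = 1) (J : Fin (k + 1) → E) (hJ : J 0 ∈ U)
    (h : ∀ n, 0 < n → Qn u n Q J = 0) : Q (act k u 1 J) = Q J := by
  have hd : Differentiable ℂ (fun τ => Q (act k u τ J)) := fun τ =>
    (hq_fam_an1 hQ hu J hJ τ).differentiableAt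
  have h1 := Complex.taylorSeries_eq_of_entire hd 0 1
  rw [tsum_eq_single 0] at h1
  · simp only [Nat.factorial_zero, Nat.cast_one, inv_one, pow_zero, one_smul, iteratedDeriv_zero,
      act_zero hu hu0] at h1
    exact h1.symm
  · intro n hn
    have h2 : iteratedDeriv n (fun τ => Q (act k u τ J)) 0 = 0 := h n (Nat.pos_of_ne_zero hn)
    rw [h2, smul_zero, smul_zero]

/-- derivative in a parameter of the iterated derivatives of a power -/
theorem pow_param {A B : ℂ → ℂ} {s : ℂ} (hA : AnalyticAt ℂ A s) (hB : AnalyticAt ℂ B s)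
    (p q : ℕ) : HasDerivAt (fun h : ℂ => iteratedDeriv q (fun z => (A z + h * B z) ^ p) s)
      (iteratedDeriv q (fun z => p * A z ^ (p - 1) * B z) s) 0 := by
  have h1 : ∀ h : ℂ, iteratedDeriv q (fun z => (A z + h * B z) ^ p) s =
      ∑ l ∈ Finset.range (p + 1), h ^ l *
        iteratedDeriv q (fun z => B z ^ l * A z ^ (p - l) * (p.choose l : ℂ)) s := by
    intro h
    have h2 : (fun z => (A z + h * B z) ^ p) = fun z => ∑ l ∈ Finset.range (p + 1),
        h ^ l * (B z ^ l * A z ^ (p - l) * (p.choose l : ℂ)) := by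
      funext z
      rw [add_comm, add_pow]
      refine Finset.sum_congr rfl fun l _ => ?_
      rw [mul_pow]
      ring
    rw [h2, iteratedDeriv_fun_sum]
    · refine Finset.sum_congr rfl fun l _ => ?_
      rw [iteratedDeriv_const_mul_field]
    · intro l _
      exact (analyticAt_const.mul (((hB.pow l).mul (hA.pow _)).mul analyticAt_const)).contDiffAt
  have h3 : (fun h : ℂ => iteratedDeriv q (fun z => (A z + h * B z) ^ p) s) =
      fun h => ∑ l ∈ Finset.range (p + 1), h ^ l *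
        iteratedDeriv q (fun z => B z ^ l * A z ^ (p - l) * (p.choose l : ℂ)) s := by
    funext h
    exact h1 h
  rw [h3]
  have h4 : HasDerivAt (fun h : ℂ => ∑ l ∈ Finset.range (p + 1), h ^ l *
        iteratedDeriv q (fun z => B z ^ l * A z ^ (p - l) * (p.choose l : ℂ)) s)
      (∑ l ∈ Finset.range (p + 1), ((l : ℂ) * 0 ^ (l - 1)) *
        iteratedDeriv q (fun z => B z ^ l * A z ^ (p - l) * (p.choose l : ℂ)) s) 0 := by
    apply HasDerivAt.fun_sum
    intro l _
    exact (hasDerivAt_pow l 0).mul_const _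
  convert h4 using 1
  rcases Nat.eq_zero_or_pos p with hp | hp
  · subst hp
    simp
  · rw [Finset.sum_eq_single 1]
    · simp only [Nat.cast_one, one_mul, Nat.sub_self, pow_zero, pow_one, Nat.choose_one_right]
      congr 1
      funext z
      ring
    · intro l _ hl
      rcases Nat.eq_zero_or_pos l with hl0 | hl0
      · subst hl0
        simp
      · have h5 : l - 1 ≠ 0 := by omega
        rw [zero_pow h5, mul_zero, zero_mul]
    · intro h
      exact absurd (Finset.mem_range.2 (by omega)) h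

end Pool.Agent.GGH
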