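import Pool.Agent.Lib_helper58.GG.H2

/-! # Jet differentials: invariance in a chart (MP_45e720_ag) -/

set_option autoImplicit false
set_option linter.unusedSectionVars false

open Filter Topology Metric Set

namespace Pool.Agent.GGH

variable {E : Type} [NormedAddCommGroup E] [NormedSpace ℂ E] [FiniteDimensional ℂ E]

/-- the jets of `z ↦ f (A z + h * B z)` are differentiable in `h` when `f` is replaced by its Taylor
polynomial -/
theorem pol_param {k : ℕ} (J : Fin (k + 1) → E) {A B : ℂ → ℂ} {s : ℂ} (hA : AnalyticAt ℂ A s)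
    (hB : AnalyticAt ℂ B s) (q : ℕ) :
    HasDerivAt (fun h : ℂ => iteratedDeriv q (fun z => pol k J (A z + h * B z)) s)
      (∑ p : Fin (k + 1), (iteratedDeriv q (fun z => (p : ℕ) * A z ^ ((p : ℕ) - 1) * B z) s /
        ((p : ℕ).factorial : ℂ)) • J p) 0 := by
  have h1 : (fun h : ℂ => iteratedDeriv q (fun z => pol k J (A z + h * B z)) s) =
      fun h => ∑ p : Fin (k + 1),
        (iteratedDeriv q (fun z => (A z + h * B z) ^ (p : ℕ)) s / ((p : ℕ).factorial : ℂ)) • J p := by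
    funext h
    exact it_pol_comp J (hA.add (analyticAt_const.mul hB)) q
  rw [h1]
  apply HasDerivAt.fun_sum
  intro p _
  exact ((pow_param hA hB p q).div_const _).smul_const _

/-- invariance under the family implies invariance under all reparametrisations -/
theorem inv_chart {k m : ℕ} {U : Set E} {Q : (Fin (k + 1) → E) → ℂ} (hm : 0 < m)
    (hQ : HQ U m Q) (hinv : ∀ u : ℂ → ℂ, AnalyticAt ℂ u 0 → u 0 = 1 → ∀ J : Fin (k + 1) → E,
      J 0 ∈ U → Q (act k u 1 J) = Q J) {f : ℂ → E} (hf : AnalyticAt ℂ f 0) (hf0 : f 0 ∈ U)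
    {ψ : ℂ → ℂ} (hψ : AnalyticAt ℂ ψ 0) (hψ0 : ψ 0 = 0) :
    Q (jt k (fun z => f (ψ z)) 0) = deriv ψ 0 ^ m * Q (jt k f 0) := by
  have hJ : (jt k f 0) 0 ∈ U := by simpa [jt] using hf0
  -- the case of a nonzero derivative
  have key : ∀ ψ : ℂ → ℂ, AnalyticAt ℂ ψ 0 → ψ 0 = 0 → deriv ψ 0 ≠ 0 →
      Q (jt k (fun z => f (ψ z)) 0) = deriv ψ 0 ^ m * Q (jt k f 0) := by
    intro ψ hψ hψ0 hl
    set l := deriv ψ 0 with hldef
    set u : ℂ → ℂ := fun z => dslope ψ 0 z / l with hu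
    have hua : AnalyticAt ℂ u 0 := by
      have h1 : AnalyticAt ℂ (dslope ψ 0) 0 := by
        obtain ⟨s, hs⟩ := hψ
        exact (hs.has_fpower_series_dslope_fslope).analyticAt
      exact h1.div analyticAt_const hl
    have hu0 : u 0 = 1 := by
      rw [hu]
      simp only [dslope_same]
      exact div_self hl
    have hψu : ∀ z, ψ z = l * (z * u (1 * z)) := by
      intro z
      have h1 := sub_smul_dslope ψ 0 z
      rw [hψ0, sub_zero, sub_zero, smul_eq_mul] at h1
      rw [hu, one_mul]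
      simp only
      rw [← h1]
      field_simp
    have hg : AnalyticAt ℂ (fun z => f (l * z)) 0 := by
      have h2 : AnalyticAt ℂ (fun z : ℂ => l * z) 0 := analyticAt_const.mul analyticAt_id
      have h3 : AnalyticAt ℂ f (l * 0) := by rwa [mul_zero]
      exact h3.fun_comp (f := fun z : ℂ => l * z) h2
    have h4 : (fun z => f (ψ z)) = fun z => (fun z => f (l * z)) (z * u (1 * z)) := by
      funext z
      rw [hψu z]
    rw [h4, jt_fam hg hua 1, jt_sc hf l, hinv u hua hu0, hQ.hom _ hJ l hl]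
    simpa [sc] using hJ
  by_cases hl : deriv ψ 0 = 0
  · rw [hl, zero_pow (by omega), zero_mul]
    -- the jets of the perturbed reparametrisations
    have hc : ContinuousAt (fun ε : ℂ => jt k (fun z => f (ψ z + ε * z)) 0) 0 := by
      rw [continuousAt_pi]
      intro q
      have h1 : (fun ε : ℂ => jt k (fun z => f (ψ z + ε * z)) 0 q) = fun ε =>
          iteratedDeriv q (fun z => pol k (jt k f 0) (ψ z + ε * z)) 0 := by
        funext ε
        have ha : AnalyticAt ℂ (fun z => ψ z + ε * z) 0 :=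
          hψ.add (analyticAt_const.mul analyticAt_id)
        have h2 := jt_comp_congr (k := k) hf (pol_an (jt k f 0) 0) ha (by simp [hψ0])
          (jt_pol _).symm
        exact congrFun h2 q
      rw [h1]
      exact (pol_param (jt k f 0) hψ (analyticAt_id (𝕜 := ℂ)) q).continuousAt
    have hU : jt k (fun z => f (ψ z + 0 * z)) 0 = jt k (fun z => f (ψ z)) 0 := by
      simp
    have hJ2 : (jt k (fun z => f (ψ z)) 0) 0 ∈ U := by
      simpa [jt, hψ0] using hf0
    have hcq : ContinuousAt (fun ε : ℂ => Q (jt k (fun z => f (ψ z + ε * z)) 0)) 0 := by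
      refine ContinuousAt.comp (g := Q) (f := fun ε : ℂ => jt k (fun z => f (ψ z + ε * z)) 0) ?_ hc
      show ContinuousAt Q (jt k (fun z => f (ψ z + 0 * z)) 0)
      rw [hU]
      exact (hQ.an _ hJ2).continuousAt
    have h1 : Tendsto (fun ε : ℂ => Q (jt k (fun z => f (ψ z + ε * z)) 0)) (𝓝[≠] 0)
        (𝓝 (Q (jt k (fun z => f (ψ z)) 0))) := by
      have h2 := hcq.tendsto.mono_left (nhdsWithin_le_nhds (s := {(0 : ℂ)}ᶜ))
      simpa using h2
    have h2 : Tendsto (fun ε : ℂ => Q (jt k (fun z => f (ψ z + ε * z)) 0)) (𝓝[≠] 0) (𝓝 0) := by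
      have h3 : Tendsto (fun ε : ℂ => ε ^ m * Q (jt k f 0)) (𝓝[≠] 0) (𝓝 0) := by
        have h4 : ContinuousAt (fun ε : ℂ => ε ^ m * Q (jt k f 0)) 0 := by fun_prop
        have h5 := h4.tendsto.mono_left (nhdsWithin_le_nhds (s := {(0 : ℂ)}ᶜ))
        rwa [zero_pow (by omega), zero_mul] at h5
      refine h3.congr' ?_
      filter_upwards [self_mem_nhdsWithin] with ε hε
      have ha : AnalyticAt ℂ (fun z => ψ z + ε * z) 0 :=
        hψ.add (analyticAt_const.mul analyticAt_id)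
      have hd : deriv (fun z => ψ z + ε * z) 0 = ε := by
        have h5 : HasDerivAt (fun z => ψ z + ε * z) (deriv ψ 0 + ε * 1) 0 :=
          hψ.differentiableAt.hasDerivAt.add ((hasDerivAt_id (0 : ℂ)).const_mul ε)
        rw [h5.deriv, hl, zero_add, mul_one]
      have h6 := key (fun z => ψ z + ε * z) ha (by simp [hψ0]) (by rw [hd]; exact hε)
      rw [h6, hd]
    exact tendsto_nhds_unique h1 h2
  · exact key ψ hψ hψ0 hl

theorem it_an {g : ℂ → E} (hg : ∀ z, AnalyticAt ℂ g z) (q : ℕ) (z : ℂ) :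
    AnalyticAt ℂ (iteratedDeriv q g) z := by
  have : CompleteSpace E := FiniteDimensional.complete ℂ E
  induction q generalizing z with
  | zero =>
    rw [iteratedDeriv_zero]
    exact hg z
  | succ q ih =>
    rw [iteratedDeriv_succ]
    exact (ih z).deriv

theorem jt_an {k : ℕ} {g : ℂ → E} (hg : ∀ z, AnalyticAt ℂ g z) (z : ℂ) :
    AnalyticAt ℂ (jt k g) z :=
  analyticAt_pi_iff.2 fun q => it_an hg q z

/-- the derivative of the jets of the deformed curve `z ↦ F (z + h / z)` -/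
theorem stat_def {k : ℕ} (J : Fin (k + 1) → E) {w : ℂ → E}
    (hwF : ∀ z, deriv (pol k J) z = z • w z) {s : ℂ} (hs0 : s ≠ 0) :
    HasDerivAt (fun h : ℂ => jt k (fun z => pol k J (s + z + h * (s + z)⁻¹)) 0) (jt k w s) 0 := by
  have hA : AnalyticAt ℂ (fun z : ℂ => s + z) 0 := analyticAt_const.add analyticAt_id
  have hB : AnalyticAt ℂ (fun z : ℂ => (s + z)⁻¹) 0 := hA.inv (by simpa using hs0)
  rw [hasDerivAt_pi]
  intro q
  have h1 := pol_param J hA hB q
  have h2 : (∑ p : Fin (k + 1), (iteratedDeriv q (fun z => (p : ℕ) *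
      (s + z) ^ ((p : ℕ) - 1) * (s + z)⁻¹) 0 / ((p : ℕ).factorial : ℂ)) • J p) = jt k w s q := by
    have h3 : jt k w s q = iteratedDeriv q (fun z => w (s + z)) 0 := by
      rw [iteratedDeriv_comp_const_add]
      simp [jt]
    have h4 : (fun z => w (s + z)) =ᶠ[𝓝 0] fun z => ∑ p : Fin (k + 1),
        (((p : ℕ) * (s + z) ^ ((p : ℕ) - 1) * (s + z)⁻¹) / ((p : ℕ).factorial : ℂ)) • J p := by
      have h5 : ∀ᶠ z in 𝓝 (0 : ℂ), s + z ≠ 0 := by
        have h6 : ContinuousAt (fun z : ℂ => s + z) 0 := by fun_prop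
        exact h6.eventually_ne (by simpa using hs0)
      filter_upwards [h5] with z hz
      have h7 : w (s + z) = (s + z)⁻¹ • deriv (pol k J) (s + z) := by
        rw [hwF, smul_smul, inv_mul_cancel₀ hz, one_smul]
      have h8 : deriv (pol k J) (s + z) = ∑ p : Fin (k + 1),
          ((p : ℕ) * (s + z) ^ ((p : ℕ) - 1) / ((p : ℕ).factorial : ℂ)) • J p := by
        have h9 : HasDerivAt (pol k J) (∑ p : Fin (k + 1),
            ((p : ℕ) * (s + z) ^ ((p : ℕ) - 1) / ((p : ℕ).factorial : ℂ)) • J p) (s + z) := by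
          unfold pol
          apply HasDerivAt.fun_sum
          intro p _
          exact ((hasDerivAt_pow (p : ℕ) (s + z)).div_const _).smul_const _
        exact h9.deriv
      rw [h7, h8, Finset.smul_sum]
      refine Finset.sum_congr rfl fun p _ => ?_
      rw [smul_smul]
      congr 1
      ring
    have h10 : ∀ p : Fin (k + 1), AnalyticAt ℂ (fun z : ℂ => (((p : ℕ) : ℂ) *
        (s + z) ^ ((p : ℕ) - 1) * (s + z)⁻¹) / ((p : ℕ).factorial : ℂ)) 0 := fun p =>
      ((analyticAt_const.mul (hA.pow _)).mul hB).div analyticAt_const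
        (by exact_mod_cast Nat.factorial_ne_zero _)
    have h11 : ∀ p : Fin (k + 1), AnalyticAt ℂ (fun z : ℂ => ((((p : ℕ) : ℂ) *
        (s + z) ^ ((p : ℕ) - 1) * (s + z)⁻¹) / ((p : ℕ).factorial : ℂ)) • J p) 0 := fun p =>
      (h10 p).smul analyticAt_const
    rw [h3, h4.iteratedDeriv_eq, iteratedDeriv_fun_sum (fun p _ => (h11 p).contDiffAt)]
    refine Finset.sum_congr rfl fun p _ => ?_
    rw [iteratedDeriv_smul_const (h10 p).contDiffAt, iteratedDeriv_div_const]
  rw [← h2]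
  exact h1

/-- the invariance under `z ↦ z + h / z` near the point `s` -/
theorem stat_inv {k m : ℕ} {U : Set E} (hUo : IsOpen U) {Q : (Fin (k + 1) → E) → ℂ}
    (hinv : ∀ f : ℂ → E, AnalyticAt ℂ f 0 → f 0 ∈ U → ∀ ψ : ℂ → ℂ, AnalyticAt ℂ ψ 0 → ψ 0 = 0 →
      Q (jt k (fun z => f (ψ z)) 0) = deriv ψ 0 ^ m * Q (jt k f 0))
    {F : ℂ → E} (hFan : ∀ z, AnalyticAt ℂ F z) {s : ℂ} (hs0 : s ≠ 0) (hsU : F s ∈ U) :
    ∀ᶠ h in 𝓝 (0 : ℂ), Q (jt k (fun z => F (s + z + h * (s + z)⁻¹)) 0) =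
      (1 - h / s ^ 2) ^ m * Q (jt k F (s + h * s⁻¹)) := by
  have hA : AnalyticAt ℂ (fun z : ℂ => s + z) 0 := analyticAt_const.add analyticAt_id
  have hB : AnalyticAt ℂ (fun z : ℂ => (s + z)⁻¹) 0 := hA.inv (by simpa using hs0)
  have hcU : ∀ᶠ h in 𝓝 (0 : ℂ), F (s + h * s⁻¹) ∈ U := by
    have h1 : ContinuousAt (fun h : ℂ => F (s + h * s⁻¹)) 0 := by
      refine ContinuousAt.comp (g := F) (f := fun h : ℂ => s + h * s⁻¹) ?_ (by fun_prop)
      exact (hFan _).continuousAt
    refine h1.eventually (hUo.mem_nhds ?_)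
    simpa using hsU
  filter_upwards [hcU] with h hh
  set f : ℂ → E := fun z => F (s + h * s⁻¹ + z) with hf
  set ψ : ℂ → ℂ := fun z => (s + z + h * (s + z)⁻¹) - (s + h * s⁻¹) with hψ
  have hfan : AnalyticAt ℂ f 0 := by
    have h1 : AnalyticAt ℂ (fun z : ℂ => s + h * s⁻¹ + z) 0 :=
      analyticAt_const.add analyticAt_id
    exact (hFan _).fun_comp h1
  have hψan : AnalyticAt ℂ ψ 0 :=
    (hA.add (analyticAt_const.mul hB)).sub analyticAt_const
  have hψ0 : ψ 0 = 0 := by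
    rw [hψ]
    simp
  have hψd : deriv ψ 0 = 1 - h / s ^ 2 := by
    have h1 : HasDerivAt (fun z : ℂ => s + z) 1 0 := (hasDerivAt_id (0 : ℂ)).const_add s
    have h2 : HasDerivAt (fun z : ℂ => (s + z)⁻¹) (-1 / (s + 0) ^ 2) 0 :=
      h1.fun_inv (by simpa using hs0)
    have h3 : HasDerivAt ψ (1 + h * (-1 / (s + 0) ^ 2)) 0 :=
      (h1.add (h2.const_mul h)).sub_const _
    rw [h3.deriv, add_zero]
    ring
  have h1 := hinv f hfan (by simpa [hf] using hh) ψ hψan hψ0
  rw [hψd] at h1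
  have h2 : (fun z => f (ψ z)) = fun z => F (s + z + h * (s + z)⁻¹) := by
    funext z
    have h4 : s + h * s⁻¹ + (s + z + h * (s + z)⁻¹ - (s + h * s⁻¹)) =
        s + z + h * (s + z)⁻¹ := by ring
    show F (s + h * s⁻¹ + (s + z + h * (s + z)⁻¹ - (s + h * s⁻¹))) = _
    rw [h4]
  have h3 : jt k f 0 = jt k F (s + h * s⁻¹) := by
    funext q
    rw [hf]
    simp only [jt]
    rw [iteratedDeriv_comp_const_add]
    simp
  rw [h2, h3] at h1
  exact h1

/-- the identity which comes from the deformation `z ↦ z + h / z` -/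
theorem stat_id {k m : ℕ} {U : Set E} (hUo : IsOpen U) {Q : (Fin (k + 1) → E) → ℂ}
    (han : ∀ J : Fin (k + 1) → E, J 0 ∈ U → AnalyticAt ℂ Q J)
    (hinv : ∀ f : ℂ → E, AnalyticAt ℂ f 0 → f 0 ∈ U → ∀ ψ : ℂ → ℂ, AnalyticAt ℂ ψ 0 → ψ 0 = 0 →
      Q (jt k (fun z => f (ψ z)) 0) = deriv ψ 0 ^ m * Q (jt k f 0))
    (J : Fin (k + 1) → E) {w : ℂ → E} (hwF : ∀ z, deriv (pol k J) z = z • w z) {s : ℂ}
    (hs0 : s ≠ 0) (hsU : pol k J s ∈ U) :
    s ^ 2 * fderiv ℂ Q (jt k (pol k J) s) (jt k w s) =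
      -(m : ℂ) * Q (jt k (pol k J) s) + s * deriv (fun s => Q (jt k (pol k J) s)) s := by
  have hFan : ∀ z, AnalyticAt ℂ (pol k J) z := fun z => pol_an J z
  have hjz : (jt k (pol k J) s) 0 ∈ U := by simpa [jt] using hsU
  have hQan : AnalyticAt ℂ Q (jt k (pol k J) s) := han _ hjz
  have hK0 : jt k (fun z => pol k J (s + z + 0 * (s + z)⁻¹)) 0 = jt k (pol k J) s := by
    funext q
    simp only [jt, zero_mul, add_zero]
    rw [iteratedDeriv_comp_const_add]
    simp
  have hKd := stat_def J hwF hs0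
  have hR := stat_inv hUo hinv hFan hs0 hsU
  generalize hKK : (fun h : ℂ => jt k (fun z => pol k J (s + z + h * (s + z)⁻¹)) 0) = K at hKd
  have hKv : ∀ h, jt k (fun z => pol k J (s + z + h * (s + z)⁻¹)) 0 = K h := fun h =>
    congrFun hKK h
  have hK1 : K 0 = jt k (pol k J) s := by rw [← hKv 0, hK0]
  have hR' : ∀ᶠ h in 𝓝 (0 : ℂ), Q (K h) =
      (1 - h / s ^ 2) ^ m * Q (jt k (pol k J) (s + h * s⁻¹)) := by
    filter_upwards [hR] with h hh
    rw [← hKv h]
    exact hh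
  have hL : HasDerivAt (fun h => Q (K h))
      (fderiv ℂ Q (jt k (pol k J) s) (jt k w s)) 0 := by
    have h1 : HasFDerivAt Q (fderiv ℂ Q (jt k (pol k J) s)) (K 0) := by
      rw [hK1]
      exact hQan.differentiableAt.hasFDerivAt
    exact h1.comp_hasDerivAt 0 hKd
  have hR2 : HasDerivAt (fun h => (1 - h / s ^ 2) ^ m * Q (jt k (pol k J) (s + h * s⁻¹)))
      ((m : ℂ) * (1 - 0 / s ^ 2) ^ (m - 1) * (-(1 / s ^ 2)) *
        Q (jt k (pol k J) (s + 0 * s⁻¹)) + (1 - 0 / s ^ 2) ^ m *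
        (deriv (fun s => Q (jt k (pol k J) s)) s * s⁻¹)) 0 := by
    have h1 : HasDerivAt (fun h : ℂ => 1 - h / s ^ 2) (-(1 / s ^ 2)) 0 := by
      have h2 := ((hasDerivAt_id (0 : ℂ)).div_const (s ^ 2)).const_sub 1
      simpa using h2
    have h3 : HasDerivAt (fun s => Q (jt k (pol k J) s))
        (deriv (fun s => Q (jt k (pol k J) s)) s) (s + 0 * s⁻¹) := by
      rw [zero_mul, add_zero]
      have h4 : AnalyticAt ℂ (fun s => Q (jt k (pol k J) s)) s := hQan.fun_comp (jt_an hFan s)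
      exact h4.differentiableAt.hasDerivAt
    have h5 : HasDerivAt (fun h : ℂ => s + h * s⁻¹) s⁻¹ 0 := by
      have h6 := ((hasDerivAt_id (0 : ℂ)).mul_const s⁻¹).const_add s
      simpa using h6
    have h7 : HasDerivAt (fun h : ℂ => Q (jt k (pol k J) (s + h * s⁻¹)))
        (deriv (fun s => Q (jt k (pol k J) s)) s * s⁻¹) 0 :=
      HasDerivAt.comp (h₂ := fun s => Q (jt k (pol k J) s)) (h := fun h : ℂ => s + h * s⁻¹)
        (0 : ℂ) h3 h5
    exact (h1.pow m).mul h7
  have hEq := hL.unique (hR2.congr_of_eventuallyEq hR')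
  rw [hEq]
  simp only [zero_div, sub_zero, one_pow, zero_mul, add_zero, one_mul, mul_one]
  field_simp

/-- an invariant function vanishes on singular jets -/
theorem stat_chart {k m : ℕ} {U : Set E} (hUo : IsOpen U) {Q : (Fin (k + 1) → E) → ℂ}
    (hm : 0 < m) (han : ∀ J : Fin (k + 1) → E, J 0 ∈ U → AnalyticAt ℂ Q J)
    (hinv : ∀ f : ℂ → E, AnalyticAt ℂ f 0 → f 0 ∈ U → ∀ ψ : ℂ → ℂ, AnalyticAt ℂ ψ 0 → ψ 0 = 0 →
      Q (jt k (fun z => f (ψ z)) 0) = deriv ψ 0 ^ m * Q (jt k f 0))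
    (J : Fin (k + 1) → E) (hJ : J 0 ∈ U) (hd : deriv (pol k J) 0 = 0) : Q J = 0 := by
  have : CompleteSpace E := FiniteDimensional.complete ℂ E
  have hFan : ∀ z, AnalyticAt ℂ (pol k J) z := fun z => pol_an J z
  have hF0 : pol k J 0 ∈ U := by
    have h := congrFun (jt_pol J) 0
    simp only [jt, Fin.val_zero, iteratedDeriv_zero] at h
    rw [h]
    exact hJ
  -- the quotient `F' (z) / z`
  set w : ℂ → E := dslope (deriv (pol k J)) 0 with hw
  have hwan : ∀ z, AnalyticAt ℂ w z := by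
    have h1 : DifferentiableOn ℂ (dslope (deriv (pol k J)) 0) univ := by
      rw [Complex.differentiableOn_dslope (c := (0 : ℂ)) Filter.univ_mem]
      intro z _
      exact ((hFan z).deriv.differentiableAt).differentiableWithinAt
    intro z
    exact h1.analyticAt Filter.univ_mem
  have hwF : ∀ z, deriv (pol k J) z = z • w z := by
    intro z
    have h1 := sub_smul_dslope (deriv (pol k J)) 0 z
    rw [hd, sub_zero, sub_zero] at h1
    exact h1.symm
  have hj0 : jt k (pol k J) 0 = J := jt_pol J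
  have haan : AnalyticAt ℂ (fun s => Q (jt k (pol k J) s)) 0 := by
    have h1 : AnalyticAt ℂ Q (jt k (pol k J) 0) := by
      rw [hj0]
      exact han J hJ
    exact h1.fun_comp (jt_an hFan 0)
  have key : ∀ᶠ s in 𝓝[≠] (0 : ℂ), s ^ 2 * fderiv ℂ Q (jt k (pol k J) s) (jt k w s) =
      -(m : ℂ) * Q (jt k (pol k J) s) + s * deriv (fun s => Q (jt k (pol k J) s)) s := by
    have hFU : ∀ᶠ s in 𝓝[≠] (0 : ℂ), pol k J s ∈ U :=
      ((hFan 0).continuousAt.eventually (hUo.mem_nhds hF0)).filter_mono nhdsWithin_le_nhds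
    filter_upwards [self_mem_nhdsWithin, hFU] with s hs hsU
    exact stat_id hUo han hinv J hwF hs hsU
  -- passage to the limit
  have hlhs : Tendsto (fun s => s ^ 2 * fderiv ℂ Q (jt k (pol k J) s) (jt k w s)) (𝓝[≠] 0)
      (𝓝 0) := by
    have h1 : ContinuousAt (fun s => s ^ 2 * fderiv ℂ Q (jt k (pol k J) s) (jt k w s)) 0 := by
      refine ContinuousAt.mul (by fun_prop) ?_
      refine ContinuousAt.clm_apply ?_ ?_
      · refine ContinuousAt.comp (g := fderiv ℂ Q) (f := jt k (pol k J)) ?_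
          (jt_an hFan 0).continuousAt
        rw [hj0]
        exact (han J hJ).fderiv.continuousAt
      · exact (jt_an hwan 0).continuousAt
    have h2 := h1.tendsto.mono_left (nhdsWithin_le_nhds (s := {(0 : ℂ)}ᶜ))
    simpa using h2
  have hrhs : Tendsto (fun s => -(m : ℂ) * Q (jt k (pol k J) s) +
      s * deriv (fun s => Q (jt k (pol k J) s)) s) (𝓝[≠] 0) (𝓝 (-(m : ℂ) * Q J)) := by
    have h1 : ContinuousAt (fun s => -(m : ℂ) * Q (jt k (pol k J) s) +
        s * deriv (fun s => Q (jt k (pol k J) s)) s) 0 := by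
      refine ContinuousAt.add (continuousAt_const.mul haan.continuousAt) ?_
      exact continuousAt_id.mul haan.deriv.continuousAt
    have h2 := h1.tendsto.mono_left (nhdsWithin_le_nhds (s := {(0 : ℂ)}ᶜ))
    simpa [hj0] using h2
  have h3 := tendsto_nhds_unique (hlhs.congr' key) hrhs
  have h4 : (m : ℂ) ≠ 0 := by exact_mod_cast hm.ne'
  have h5 : (m : ℂ) * Q J = 0 := by
    have h6 : -(m : ℂ) * Q J = 0 := h3.symm
    linear_combination -h6
  exact (mul_eq_zero.1 h5).resolve_left h4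

end Pool.Agent.GGH
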