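import Pool.Agent.Lib_helper58.GG.H3
import Pool.Agent.Lib_helper58.MBS.Notions

/-! # A nonzero jet differential gives an invariant jet differential (MP_45e720_ag) -/

set_option autoImplicit false
set_option linter.unusedSectionVars false

open Filter Topology Metric Set
open scoped Manifold ContDiff

namespace Pool.Agent.GGH

open Pool.Agent.MinBrody

section

variable (E : Type) {X : Type} [NormedAddCommGroup E] [NormedSpace ℂ E] [TopologicalSpace X]
  [ChartedSpace E X]

/-- `P` is a jet differential of order `k` and weight `m` on `X` (Green, Griffiths): a holomorphic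
function of the `k`-jets of germs of holomorphic curves, which is multiplied by `l ^ m` under the
dilatation `z ↦ l * z` of the time. -/
structure IsJetDifferential (k m : ℕ) (P : (ℂ → X) → ℂ) : Prop where
  hol : ∀ y : X, ∃ Q : (Fin (k + 1) → E) → ℂ,
    (∀ J, J 0 ∈ (chartAt E y).target → AnalyticAt ℂ Q J) ∧
    ∀ c, IsGerm E c → c 0 ∈ (chartAt E y).source → P c = Q (chartJet E k y c)
  hom : ∀ c, IsGerm E c → ∀ l : ℂ, l ≠ 0 → P (fun z => c (l * z)) = l ^ m * P c

end

section

variable {E X : Type} [NormedAddCommGroup E] [NormedSpace ℂ E] [FiniteDimensional ℂ E]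
  [TopologicalSpace X] [ChartedSpace E X] [IsManifold 𝓘(ℂ, E) ω X]

theorem germ_an {c : ℂ → X} (hc : IsGerm E c) (y : X) (hy : c 0 ∈ (chartAt E y).source) :
    AnalyticAt ℂ (fun z => chartAt E y (c z)) 0 := by
  have : IsManifold 𝓘(ℂ, E) 1 X := IsManifold.of_le (n := ω) le_top
  have : CompleteSpace E := FiniteDimensional.complete ℂ E
  have hcont : ContinuousAt c 0 := (Filter.Eventually.self_of_nhds hc).continuousAt
  have h5 : ∀ᶠ s in 𝓝 (0 : ℂ), c s ∈ (chartAt E y).source :=
    hcont.eventually ((chartAt E y).open_source.mem_nhds hy)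
  have hd : ∀ᶠ s in 𝓝 (0 : ℂ), DifferentiableAt ℂ (fun z => chartAt E y (c z)) s := by
    filter_upwards [hc, h5] with s hs hs5
    have h1 : MDifferentiableAt 𝓘(ℂ, E) 𝓘(ℂ, E) (chartAt E y) (c s) :=
      mdifferentiableAt_atlas (I := 𝓘(ℂ, E)) (chart_mem_atlas E y) hs5
    have h2 : MDifferentiableAt 𝓘(ℂ, ℂ) 𝓘(ℂ, E) (chartAt E y ∘ c) s := h1.comp s hs
    rw [mdifferentiableAt_iff_differentiableAt] at h2
    exact h2
  exact Complex.analyticAt_iff_eventually_differentiableAt.2 hd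

theorem germ_comp {c : ℂ → X} (hc : IsGerm E c) {ψ : ℂ → ℂ} (hψ : AnalyticAt ℂ ψ 0)
    (h0 : ψ 0 = 0) : IsGerm E (fun z => c (ψ z)) := by
  have ht : Tendsto ψ (𝓝 0) (𝓝 0) := by
    have := hψ.continuousAt.tendsto
    rwa [h0] at this
  unfold IsGerm
  filter_upwards [ht.eventually hc, hψ.eventually_analyticAt] with z hz hz2
  exact hz.comp z hz2.differentiableAt.mdifferentiableAt

/-- the germ of the curve which is given by `f` in a chart -/
theorem germ_of {f : ℂ → E} (hf : AnalyticAt ℂ f 0) (y : X)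
    (hy : f 0 ∈ (chartAt E y).target) : IsGerm E (fun z => (chartAt E y).symm (f z)) ∧
      (fun z => chartAt E y ((chartAt E y).symm (f z))) =ᶠ[𝓝 0] f ∧
      (chartAt E y).symm (f 0) ∈ (chartAt E y).source := by
  have : IsManifold 𝓘(ℂ, E) 1 X := IsManifold.of_le (n := ω) le_top
  have h5 : ∀ᶠ s in 𝓝 (0 : ℂ), f s ∈ (chartAt E y).target :=
    hf.continuousAt.eventually ((chartAt E y).open_target.mem_nhds hy)
  refine ⟨?_, ?_, (chartAt E y).map_target hy⟩
  · unfold IsGerm
    filter_upwards [h5, hf.eventually_analyticAt] with z hz hz2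
    have h2 : MDifferentiableAt 𝓘(ℂ, E) 𝓘(ℂ, E) (chartAt E y).symm (f z) :=
      mdifferentiableAt_atlas_symm (I := 𝓘(ℂ, E)) (chart_mem_atlas E y) hz
    exact h2.comp z hz2.differentiableAt.mdifferentiableAt
  · filter_upwards [h5] with z hz
    exact (chartAt E y).right_inv hz

theorem jet_of {k : ℕ} (J : Fin (k + 1) → E) (y : X) (hy : J 0 ∈ (chartAt E y).target) :
    ∃ c : ℂ → X, IsGerm E c ∧ c 0 ∈ (chartAt E y).source ∧ chartJet E k y c = J := by
  have h0 : pol k J 0 = J 0 := by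
    have h := congrFun (jt_pol J) 0
    simpa [jt] using h
  obtain ⟨h1, h2, h3⟩ := germ_of (X := X) (pol_an J 0) y (by rwa [h0])
  refine ⟨_, h1, h3, ?_⟩
  funext q
  unfold chartJet
  rw [h2.iteratedDeriv_eq]
  exact congrFun (jt_pol J) q

theorem chartJet_zero {k : ℕ} (y : X) (c : ℂ → X) :
    chartJet E k y c 0 = chartAt E y (c 0) := by
  simp [chartJet]

theorem chartJet_eq {k : ℕ} (y : X) (c : ℂ → X) :
    chartJet E k y c = jt k (fun z => chartAt E y (c z)) 0 := rfl

/-- the expression of a jet differential in a chart is homogeneous -/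
theorem jd_hq {k m : ℕ} {P : (ℂ → X) → ℂ} (hP : IsJetDifferential E k m P) (y : X)
    {Q : (Fin (k + 1) → E) → ℂ} (han : ∀ J, J 0 ∈ (chartAt E y).target → AnalyticAt ℂ Q J)
    (heq : ∀ c, IsGerm E c → c 0 ∈ (chartAt E y).source → P c = Q (chartJet E k y c)) :
    HQ (chartAt E y).target m Q := by
  refine ⟨han, fun J hJ l hl => ?_⟩
  obtain ⟨c, hc, hc0, hcJ⟩ := jet_of (X := X) J y hJ
  have h1 := hP.hom c hc l hl
  have hla : AnalyticAt ℂ (fun z : ℂ => l * z) 0 := analyticAt_const.mul analyticAt_id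
  have hcl : IsGerm E (fun z => c (l * z)) := germ_comp hc hla (by simp)
  rw [heq c hc hc0, heq _ hcl (by simpa using hc0)] at h1
  have h2 : chartJet E k y (fun z => c (l * z)) = sc l J := by
    rw [chartJet_eq, ← hcJ, chartJet_eq]
    exact jt_sc (germ_an hc y hc0) l
  rw [h2, hcJ] at h1
  exact h1

/-- the derivatives of a jet differential along a family of reparametrisations -/
noncomputable def Pn (u : ℂ → ℂ) (n : ℕ) (P : (ℂ → X) → ℂ) (c : ℂ → X) : ℂ :=
  iteratedDeriv n (fun τ : ℂ => P (fun z => c (z * u (τ * z)))) 0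

theorem fam_an {u : ℂ → ℂ} (hu : AnalyticAt ℂ u 0) (τ : ℂ) :
    AnalyticAt ℂ (fun z => z * u (τ * z)) 0 := by
  have h2 : AnalyticAt ℂ (fun z : ℂ => τ * z) 0 := analyticAt_const.mul analyticAt_id
  have h3 : AnalyticAt ℂ u (τ * 0) := by rwa [mul_zero]
  exact analyticAt_id.mul (h3.fun_comp (f := fun z : ℂ => τ * z) h2)

theorem pn_eq {k : ℕ} {P : (ℂ → X) → ℂ} (y : X) {Q : (Fin (k + 1) → E) → ℂ}
    (heq : ∀ c, IsGerm E c → c 0 ∈ (chartAt E y).source → P c = Q (chartJet E k y c))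
    {u : ℂ → ℂ} (hu : AnalyticAt ℂ u 0) (n : ℕ) {c : ℂ → X} (hc : IsGerm E c)
    (hc0 : c 0 ∈ (chartAt E y).source) : Pn u n P c = Qn u n Q (chartJet E k y c) := by
  unfold Pn Qn
  congr 1
  funext τ
  rw [heq _ (germ_comp hc (fam_an hu τ) (by simp)) (by simpa using hc0), chartJet_eq, chartJet_eq]
  rw [← jt_fam (germ_an hc y hc0) hu τ]

theorem pn_jd {k m : ℕ} {P : (ℂ → X) → ℂ} (hP : IsJetDifferential E k m P) {u : ℂ → ℂ}
    (hu : AnalyticAt ℂ u 0) {n : ℕ} (hn : n ≤ m) : IsJetDifferential E k (m - n) (Pn u n P) := by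
  refine ⟨fun y => ?_, fun c hc l hl => ?_⟩
  · obtain ⟨Q, han, heq⟩ := hP.hol y
    exact ⟨Qn u n Q, fun J hJ => qn_an (jd_hq hP y han heq) hu n J hJ,
      fun c hc hc0 => pn_eq y heq hu n hc hc0⟩
  · obtain ⟨Q, han, heq⟩ := hP.hol (c 0)
    have hc0 : c 0 ∈ (chartAt E (c 0)).source := mem_chart_source E (c 0)
    have hla : AnalyticAt ℂ (fun z : ℂ => l * z) 0 := analyticAt_const.mul analyticAt_id
    have hcl : IsGerm E (fun z => c (l * z)) := germ_comp hc hla (by simp)
    have h1 := qn_hom (jd_hq hP (c 0) han heq) hu n (chartJet E k (c 0) c)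
      (by rw [chartJet_zero]; exact (chartAt E (c 0)).map_source hc0) hl
    have h2 : chartJet E k (c 0) (fun z => c (l * z)) = sc l (chartJet E k (c 0) c) :=
      jt_sc (germ_an hc (c 0) hc0) l
    rw [pn_eq (c 0) heq hu n hcl (by simp), pn_eq (c 0) heq hu n hc hc0, h2]
    have h3 : l ^ m = l ^ n * l ^ (m - n) := by rw [← pow_add, Nat.add_sub_cancel' hn]
    rw [h3, mul_assoc] at h1
    exact mul_left_cancel₀ (pow_ne_zero _ hl) h1

/-- **A nonzero jet differential of positive weight gives a nonzero invariant jet differential of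
positive weight**: take one of minimal weight. -/
theorem has_invariant_of_jet {k m : ℕ} {P : (ℂ → X) → ℂ} (hm : 0 < m)
    (hP : IsJetDifferential E k m P) (hne : ∃ c, IsGerm E c ∧ P c ≠ 0) :
    HasInvariantJetDifferential E X := by
  classical
  have hex : ∃ m, 0 < m ∧ ∃ P : (ℂ → X) → ℂ, IsJetDifferential E k m P ∧
      ∃ c, IsGerm E c ∧ P c ≠ 0 := ⟨m, hm, P, hP, hne⟩
  obtain ⟨hm', P', hP', hne'⟩ := Nat.find_spec hex
  have hmin := fun n (hn : n < Nat.find hex) => Nat.find_min hex hn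
  generalize Nat.find hex = m' at hm' hP' hmin
  have hvan : ∀ u : ℂ → ℂ, AnalyticAt ℂ u 0 → ∀ n, 0 < n → n < m' → ∀ c, IsGerm E c →
      Pn u n P' c = 0 := by
    intro u hu n hn hn2 c hc
    by_contra h
    exact hmin (m' - n) (by omega) ⟨by omega, Pn u n P', pn_jd hP' hu hn2.le, c, hc, h⟩
  -- invariance in the charts
  have hinv : ∀ (y : X) (Q : (Fin (k + 1) → E) → ℂ),
      (∀ J, J 0 ∈ (chartAt E y).target → AnalyticAt ℂ Q J) →
      (∀ c, IsGerm E c → c 0 ∈ (chartAt E y).source → P' c = Q (chartJet E k y c)) →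
      ∀ f : ℂ → E, AnalyticAt ℂ f 0 → f 0 ∈ (chartAt E y).target → ∀ ψ : ℂ → ℂ,
        AnalyticAt ℂ ψ 0 → ψ 0 = 0 →
        Q (jt k (fun z => f (ψ z)) 0) = deriv ψ 0 ^ m' * Q (jt k f 0) := by
    intro y Q han heq f hf hf0 ψ hψ hψ0
    have hQ := jd_hq hP' y han heq
    refine inv_chart hm' hQ ?_ hf hf0 hψ hψ0
    intro u hu hu0 J hJ
    refine q_inv hQ hu hu0 J hJ fun n hn => ?_
    rcases lt_or_ge n m' with h | h
    · obtain ⟨c, hc, hc0, hcJ⟩ := jet_of (X := X) J y hJ
      rw [← hcJ, ← pn_eq y heq hu n hc hc0]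
      exact hvan u hu n hn h c hc
    · exact qn_zero hQ hu n hm' h J hJ
  refine ⟨k, m', P', hm', ⟨hP'.hol, ?_, ?_⟩, hne'⟩
  · intro c hc ψ hψ hψ0
    obtain ⟨Q, han, heq⟩ := hP'.hol (c 0)
    have hc0 : c 0 ∈ (chartAt E (c 0)).source := mem_chart_source E (c 0)
    have h1 := hinv (c 0) Q han heq _ (germ_an hc (c 0) hc0)
      ((chartAt E (c 0)).map_source hc0) ψ hψ hψ0
    have h2 : IsGerm E (c ∘ ψ) := germ_comp hc hψ hψ0
    rw [heq c hc hc0, heq (c ∘ ψ) h2 (by simp [hψ0])]
    exact h1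
  · intro c hc y hy hd
    obtain ⟨Q, han, heq⟩ := hP'.hol y
    rw [heq c hc hy]
    refine stat_chart (chartAt E y).open_target hm' han (hinv y Q han heq) _ ?_ ?_
    · rw [chartJet_zero]
      exact (chartAt E y).map_source hy
    · cases k with
      | zero =>
        have h1 : pol 0 (chartJet E 0 y c) = fun _ => chartJet E 0 y c 0 := by
          funext z
          simp [pol]
        rw [h1]
        simp
      | succ k =>
        have h1 := congrFun (jt_pol (chartJet E (k + 1) y c)) 1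
        have h2 : ((1 : Fin (k + 1 + 1)) : ℕ) = 1 := rfl
        unfold jt at h1
        rw [h2, iteratedDeriv_one] at h1
        rw [h1]
        unfold chartJet
        rw [h2, iteratedDeriv_one]
        exact hd

end

end Pool.Agent.GGH
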